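import Pool.Agent.W4helper65.P3.Main

/-!
# Almost all gaps between 3-powerful numbers are nearly as large as the average gap

`a 0 < a 1 < ...` are the `3`-powerful numbers. The average of the first `M` gaps has order `M²`.
For all `M ≥ 1` and all `H ≥ 1` at most `C M (H / M²) ^ (3 / 52)` of the first `M` gaps are at most
`H`. In particular the inequality `a_{m+1} - a_m > m ^ (2 - ε)` holds for all `m ≤ M` with at most
`C M ^ (1 - 3 ε / 52)` exceptions; the exponent `2` is optimal.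
-/

set_option autoImplicit false

namespace Pool.Agent.Results.MP_8e25e3_nt.AlmostAllGaps

open Finset Pool.Agent.W4helper65.P3

theorem result : ∃ C : ℝ, 0 < C ∧ ∀ a : ℕ → ℕ, StrictMono a →
    (∀ n : ℕ, (∃ k : ℕ, a k = n) ↔ (0 < n ∧ ∀ p : ℕ, Nat.Prime p → p ∣ n → p ^ 3 ∣ n)) →
    -- the number of small gaps
    (∀ (M : ℕ) (H : ℝ), 1 ≤ M → 1 ≤ H →
      (({m : ℕ | m < M ∧ (a (m + 1) : ℝ) - a m ≤ H}.ncard : ℕ) : ℝ) ≤
        C * (M * (H / M ^ 2) ^ (3 / 52 : ℝ))) ∧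
    -- the inequality of Erdős for almost all `m`
    (∀ (M : ℕ) (ε : ℝ), 1 ≤ M → 0 < ε → ε ≤ 2 →
      (({m : ℕ | m < M ∧ (a (m + 1) : ℝ) - a m ≤ ((m : ℝ) + 1) ^ (2 - ε)}.ncard : ℕ) : ℝ) ≤
        C * (M : ℝ) ^ (1 - 3 * ε / 52)) ∧
    -- the exponent `2` is optimal
    (∀ (M : ℕ) (T : ℝ), 1 ≤ M → 0 < T →
      (({m : ℕ | m < M ∧ T * (M : ℝ) ^ 2 < (a (m + 1) : ℝ) - a m}.ncard : ℕ) : ℝ) ≤
        C * (M / T)) := by
  classical
  have hW := W_ge
  have hW0 : 0 < W := by linarith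
  set C0 : ℝ := 2 + 3 * W + 2 * W ^ 2 + 4 * W ^ 3 with hC0
  have hC1 : 8 ≤ C0 + 8 := by
    have : 0 < C0 := by positivity
    linarith
  refine ⟨C0 + 8, by linarith, fun a ha hn => ?_⟩
  have hE : Enum a := ⟨ha, hn⟩
  have hset : ∀ (M : ℕ) (p : ℕ → Prop) [DecidablePred p],
      {m : ℕ | m < M ∧ p m}.ncard = ((range M).filter p).card := by
    intro M p _
    rw [← Set.ncard_coe_finset]
    congr 1
    ext m
    simp
  have h1 : ∀ (M : ℕ) (H : ℝ), 1 ≤ M → 1 ≤ H →
      (({m : ℕ | m < M ∧ (a (m + 1) : ℝ) - a m ≤ H}.ncard : ℕ) : ℝ) ≤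
        (C0 + 8) * (M * (H / M ^ 2) ^ (3 / 52 : ℝ)) := by
    intro M H hM hH
    have hMR : (1 : ℝ) ≤ M := by exact_mod_cast hM
    have hM0 : (0 : ℝ) < M := by linarith
    rw [hset]
    rcases le_or_gt H (M ^ 2) with hHM | hHM
    · set q : ℝ := H / M ^ 2 with hq
      have hq0 : 0 < q := by positivity
      have hq1 : q ≤ 1 := by
        rw [hq, div_le_one (by positivity)]
        exact hHM
      set τ : ℝ := q ^ (1 / 52 : ℝ) with hτ
      have hτ0 : 0 < τ := Real.rpow_pos_of_pos hq0 _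
      have hτ1 : τ ≤ 1 := Real.rpow_le_one hq0.le hq1 (by norm_num)
      have e52 : τ ^ 52 = q := by
        rw [hτ, ← Real.rpow_natCast, ← Real.rpow_mul hq0.le]
        norm_num
      have e3 : τ ^ 3 = q ^ (3 / 52 : ℝ) := by
        rw [hτ, ← Real.rpow_natCast, ← Real.rpow_mul hq0.le]
        norm_num
      have hH2 : (M : ℝ) ^ 2 * τ ^ 52 = H := by
        rw [e52, hq]
        field_simp
      have h26 : 1 ≤ (M : ℝ) * τ ^ 26 := by
        have h2 : (1 : ℝ) ^ 2 ≤ (M * τ ^ 26) ^ 2 := by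
          have : ((M : ℝ) * τ ^ 26) ^ 2 = M ^ 2 * τ ^ 52 := by ring
          rw [this, hH2]
          linarith
        exact le_of_pow_le_pow_left₀ two_ne_zero (by positivity) h2
      have h3 := count hE M τ hτ0 hτ1 h26
      rw [hH2, e3] at h3
      refine h3.trans (mul_le_mul_of_nonneg_right (by linarith) (by positivity))
    · have h2 : (((range M).filter fun m : ℕ => (a (m + 1) : ℝ) - a m ≤ H).card : ℝ) ≤ M := by
        have := (Finset.card_filter_le (range M) fun m : ℕ => (a (m + 1) : ℝ) - a m ≤ H)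
        rw [Finset.card_range] at this
        exact_mod_cast this
      have h3 : (1 : ℝ) ≤ (H / M ^ 2) ^ (3 / 52 : ℝ) := by
        refine Real.one_le_rpow ?_ (by norm_num)
        rw [one_le_div (by positivity)]
        exact hHM.le
      have h4 : (M : ℝ) ≤ M * (H / M ^ 2) ^ (3 / 52 : ℝ) := by nlinarith
      nlinarith
  refine ⟨h1, ?_, ?_⟩
  · intro M ε hM hε0 hε2
    have hMR : (1 : ℝ) ≤ M := by exact_mod_cast hM
    have hM0 : (0 : ℝ) < M := by linarith
    have h2 := h1 M ((M : ℝ) ^ (2 - ε)) hM (Real.one_le_rpow hMR (by linarith))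
    have e1 : (M : ℝ) * ((M : ℝ) ^ (2 - ε) / M ^ 2) ^ (3 / 52 : ℝ) =
        (M : ℝ) ^ (1 - 3 * ε / 52) := by
      rw [← Real.rpow_natCast (M : ℝ) 2, ← Real.rpow_sub hM0, ← Real.rpow_mul hM0.le]
      nth_rewrite 1 [← Real.rpow_one (M : ℝ)]
      rw [← Real.rpow_add hM0]
      congr 1
      push_cast
      ring
    rw [e1] at h2
    refine le_trans ?_ h2
    rw [Nat.cast_le]
    refine Set.ncard_le_ncard ?_ ((Set.finite_lt_nat M).subset fun m hm => hm.1)
    rintro m ⟨hm, hm2⟩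
    refine ⟨hm, hm2.trans ?_⟩
    refine Real.rpow_le_rpow (by positivity) ?_ (by linarith)
    exact_mod_cast hm
  · intro M T hM hT
    have hMR : (1 : ℝ) ≤ M := by exact_mod_cast hM
    have hM0 : (0 : ℝ) < M := by linarith
    rw [hset]
    set F := (range M).filter fun m : ℕ => T * (M : ℝ) ^ 2 < (a (m + 1) : ℝ) - a m with hF
    have h2 : ∑ m ∈ range M, ((a (m + 1) : ℝ) - a m) = a M - a 0 :=
      Finset.sum_range_sub (fun m => (a m : ℝ)) M
    have h3 : (F.card : ℝ) * (T * M ^ 2) ≤ ∑ m ∈ range M, ((a (m + 1) : ℝ) - a m) := by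
      calc (F.card : ℝ) * (T * M ^ 2) = ∑ _m ∈ F, T * (M : ℝ) ^ 2 := by
            rw [Finset.sum_const, nsmul_eq_mul]
        _ ≤ ∑ m ∈ F, ((a (m + 1) : ℝ) - a m) :=
            Finset.sum_le_sum fun m hm => (Finset.mem_filter.1 hm).2.le
        _ ≤ _ := by
            refine Finset.sum_le_sum_of_subset_of_nonneg (Finset.filter_subset _ _) ?_
            intro m _ _
            have : (a m : ℝ) < a (m + 1) := by exact_mod_cast ha (Nat.lt_succ_self m)
            linarith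
    have h4 : (a M : ℝ) ≤ ((M : ℝ) + 1) ^ 3 := by exact_mod_cast upper hE M
    have h5 : ((M : ℝ) + 1) ^ 3 ≤ 8 * M ^ 3 := by
      have : (M : ℝ) + 1 ≤ 2 * M := by linarith
      calc ((M : ℝ) + 1) ^ 3 ≤ (2 * M) ^ 3 := pow_le_pow_left₀ (by positivity) this 3
        _ = _ := by ring
    have h6 : (0 : ℝ) ≤ a 0 := Nat.cast_nonneg _
    have h7 : (F.card : ℝ) * T * M ^ 2 ≤ 8 * M * M ^ 2 := by
      rw [h2] at h3
      nlinarith
    have h8 : (F.card : ℝ) * T ≤ 8 * M := le_of_mul_le_mul_right h7 (by positivity)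
    have h9 : (F.card : ℝ) ≤ 8 * (M / T) := by
      rw [mul_div_assoc', le_div_iff₀ hT]
      exact h8
    have h10 : 0 ≤ (M : ℝ) / T := by positivity
    nlinarith

end Pool.Agent.Results.MP_8e25e3_nt.AlmostAllGaps
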